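import Pool.Agent.BKW.Stmts

/-!
# BKW, row SUB: the `S`-unit equation `m - (m - 1) = 1`
-/

set_option autoImplicit false

open Real

open scoped BigOperators

noncomputable section

namespace Pool.Agent.BKW.H62

theorem one_le_logX {X : ℕ} (hX : 3 ≤ X) : 1 ≤ log (X : ℝ) := by
  have h2 : (3 : ℝ) ≤ X := by exact_mod_cast hX
  rw [Real.le_log_iff_exp_le (by linarith)]
  have h1 := Real.exp_one_lt_d9
  linarith

theorem fac_sum {x : ℕ} {S : Finset ℕ} (hS : x.primeFactors ⊆ S) :
    ∑ q ∈ S, (x.factorization q : ℝ) * log q = log x := by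
  rw [Real.log_nat_eq_sum_factorization]
  rw [Finsupp.sum_of_support_subset (s := S)]
  · rwa [Nat.support_factorization]
  · intro i _
    simp

theorem two_pow_fac {q x : ℕ} (hq : q.Prime) (hx : x ≠ 0) : 2 ^ x.factorization q ≤ x :=
  (Nat.pow_le_pow_left hq.two_le _).trans
    (Nat.le_of_dvd (Nat.pos_of_ne_zero hx) (Nat.ordProj_dvd x q))

/-- the bound is at least one -/
theorem base_ge {k : ℕ} {l : ℝ} (hl : 1 ≤ l) : 1 ≤ (2 : ℝ) ^ (20 * k ^ 3) * l + 2 := by
  have : 0 ≤ (2 : ℝ) ^ (20 * k ^ 3) * l := by positivity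
  linarith

theorem mono {n k : ℕ} {l : ℝ} (hl : 1 ≤ l) (h : n ≤ k) :
    (n : ℝ) * l * ((2 : ℝ) ^ (20 * n ^ 3) * l + 2) ^ (16 * n ^ 2) ≤
      (k : ℝ) * l * ((2 : ℝ) ^ (20 * k ^ 3) * l + 2) ^ (16 * k ^ 2) := by
  have h1 : (n : ℝ) ≤ k := by exact_mod_cast h
  have h3 : n ^ 3 ≤ k ^ 3 := Nat.pow_le_pow_left h 3
  have h4 : n ^ 2 ≤ k ^ 2 := Nat.pow_le_pow_left h 2
  have h5 : (2 : ℝ) ^ (20 * n ^ 3) ≤ 2 ^ (20 * k ^ 3) :=
    pow_le_pow_right₀ (by norm_num) (Nat.mul_le_mul_left _ h3)
  have h6 : (2 : ℝ) ^ (20 * n ^ 3) * l + 2 ≤ 2 ^ (20 * k ^ 3) * l + 2 := by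
    have := mul_le_mul_of_nonneg_right h5 (by linarith : (0 : ℝ) ≤ l)
    linarith
  have h7 : ((2 : ℝ) ^ (20 * n ^ 3) * l + 2) ^ (16 * n ^ 2) ≤
      ((2 : ℝ) ^ (20 * k ^ 3) * l + 2) ^ (16 * k ^ 2) :=
    (pow_le_pow_left₀ (by positivity) h6 _).trans
      (pow_le_pow_right₀ (base_ge hl) (Nat.mul_le_mul_left _ h4))
  exact mul_le_mul (mul_le_mul_of_nonneg_right h1 (by linarith)) h7 (by positivity)
    (by positivity)

theorem sub (hB : BakStmt) : SubStmt := by
  intro m k X hm hk hX hcard hle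
  have hl := one_le_logX hX
  have hk' : (1 : ℝ) ≤ k := by exact_mod_cast hk
  rcases Nat.eq_or_lt_of_le hm with hm2 | hm3
  · -- `m = 2`
    rw [← hm2]
    have h1 : 1 ≤ ((2 : ℝ) ^ (20 * k ^ 3) * log X + 2) ^ (16 * k ^ 2) :=
      one_le_pow₀ (base_ge hl)
    have h2 : 1 ≤ (k : ℝ) * log X := by nlinarith
    have h3 : 1 ≤ Yb k X := by
      unfold Yb
      nlinarith
    have h4 := Real.log_two_lt_d9
    push_cast
    linarith
  · have hm0 : m ≠ 0 := by omega
    have hm1 : m - 1 ≠ 0 := by omega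
    have hmm : m * (m - 1) ≠ 0 := mul_ne_zero hm0 hm1
    have hcop : Nat.Coprime m (m - 1) := by
      rw [Nat.coprime_self_sub_right (by omega)]
      exact Nat.coprime_one_right m
    set S : Finset ℕ := (m * (m - 1)).primeFactors with hS
    have hSm : m.primeFactors ⊆ S := Nat.primeFactors_mono (dvd_mul_right _ _) hmm
    have hSm1 : (m - 1).primeFactors ⊆ S := Nat.primeFactors_mono (dvd_mul_left _ _) hmm
    have hprime : ∀ q ∈ S, q.Prime := fun q hq => Nat.prime_of_mem_primeFactors hq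
    let β : ℕ → ℤ := fun q => (m.factorization q : ℤ) - ((m - 1).factorization q : ℤ)
    -- two different primes
    obtain ⟨p₁, hp₁, hp₁m⟩ := Nat.exists_prime_and_dvd (show m ≠ 1 by omega)
    obtain ⟨p₂, hp₂, hp₂m⟩ := Nat.exists_prime_and_dvd (show m - 1 ≠ 1 by omega)
    have hp₁S : p₁ ∈ S := hSm (Nat.mem_primeFactors.2 ⟨hp₁, hp₁m, hm0⟩)
    have hp₂S : p₂ ∈ S := hSm1 (Nat.mem_primeFactors.2 ⟨hp₂, hp₂m, hm1⟩)
    have hp12 : p₁ ≠ p₂ := by
      intro h
      have h1 : p₁ ∣ Nat.gcd m (m - 1) := Nat.dvd_gcd hp₁m (h ▸ hp₂m)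
      rw [hcop] at h1
      exact hp₁.one_lt.ne' (Nat.dvd_one.1 h1)
    -- one of the two valuations vanishes
    have hzero : ∀ q ∈ S, (m.factorization q = 0 ∧ 1 ≤ (m - 1).factorization q) ∨
        (1 ≤ m.factorization q ∧ (m - 1).factorization q = 0) := by
      intro q hq
      have hqp := hprime q hq
      have hqd : q ∣ m * (m - 1) := Nat.dvd_of_mem_primeFactors hq
      by_cases hqm : q ∣ m
      · right
        refine ⟨(hqp.dvd_iff_one_le_factorization hm0).1 hqm, ?_⟩
        refine Nat.factorization_eq_zero_of_not_dvd fun h => ?_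
        have h1 : q ∣ Nat.gcd m (m - 1) := Nat.dvd_gcd hqm h
        rw [hcop] at h1
        exact hqp.one_lt.ne' (Nat.dvd_one.1 h1)
      · left
        refine ⟨Nat.factorization_eq_zero_of_not_dvd hqm, ?_⟩
        exact (hqp.dvd_iff_one_le_factorization hm1).1 ((hqp.dvd_mul.1 hqd).resolve_left hqm)
    obtain ⟨a0, ha0, hmax⟩ := Finset.exists_max_image S (fun q => (β q).natAbs) ⟨p₁, hp₁S⟩
    have hN : 1 ≤ (S.erase a0).card := by
      rw [Finset.card_erase_of_mem ha0]
      have h2 : 2 ≤ S.card := by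
        have h3 : ({p₁, p₂} : Finset ℕ) ⊆ S := by
          intro x hx
          rw [Finset.mem_insert, Finset.mem_singleton] at hx
          rcases hx with rfl | rfl
          · exact hp₁S
          · exact hp₂S
        have h4 := Finset.card_le_card h3
        rwa [Finset.card_pair hp12] at h4
      omega
    have hN1 : (S.erase a0).card + 1 = S.card := Finset.card_erase_add_one ha0
    let N := (S.erase a0).card
    let a : Fin N → ℕ := fun i => (((S.erase a0).equivFin.symm i : (S.erase a0)) : ℕ)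
    have haS : ∀ j, a j ∈ S.erase a0 := fun j => ((S.erase a0).equivFin.symm j).2
    have haS' : ∀ j, a j ∈ S := fun j => Finset.mem_of_mem_erase (haS j)
    have hsum : ∀ f : ℕ → ℝ, ∑ j, f (a j) + f a0 = ∑ q ∈ S, f q := by
      intro f
      rw [← Finset.sum_erase_add S f ha0, ← Finset.sum_coe_sort (S.erase a0) f]
      congr 1
      exact Equiv.sum_comp (S.erase a0).equivFin.symm (fun x : (S.erase a0) => f (x : ℕ))
    let B := (β a0).natAbs
    -- the linear form
    have hLam : Lam a a0 (fun j => β (a j)) (β a0) = log m - log ((m - 1 : ℕ) : ℝ) := by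
      unfold Lam
      rw [hsum (fun q => ((β q : ℤ) : ℝ) * log q), ← fac_sum hSm, ← fac_sum hSm1,
        ← Finset.sum_sub_distrib]
      refine Finset.sum_congr rfl fun q _ => ?_
      simp only [β]
      push_cast
      ring
    have hmR : (3 : ℝ) ≤ m := by exact_mod_cast hm3
    have hm1R : ((m - 1 : ℕ) : ℝ) = (m : ℝ) - 1 := by
      rw [Nat.cast_sub (by omega), Nat.cast_one]
    have h2B : ((2 : ℝ)) ^ B ≤ m := by
      have ha0p := hprime a0 ha0
      have h1 := two_pow_fac ha0p hm0
      have h2 := two_pow_fac ha0p hm1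
      have h3 : 2 ^ B ≤ m := by
        rcases hzero a0 ha0 with ⟨h4, _⟩ | ⟨_, h4⟩
        · have h5 : B = (m - 1).factorization a0 := by
            simp only [B, β, h4]
            omega
          rw [h5]; omega
        · have h5 : B = m.factorization a0 := by
            simp only [B, β, h4]
            omega
          rw [h5]; exact h1
      exact_mod_cast h3
    have hLamle : |Lam a a0 (fun j => β (a j)) (β a0)| ≤ 2 / 2 ^ B := by
      rw [hLam, hm1R]
      have h0 : log ((m : ℝ) - 1) ≤ log m := Real.log_le_log (by linarith) (by linarith)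
      rw [abs_of_nonneg (by linarith), ← Real.log_div (by linarith) (by linarith)]
      have h1 : log ((m : ℝ) / (m - 1)) ≤ (m : ℝ) / (m - 1) - 1 :=
        Real.log_le_sub_one_of_pos (div_pos (by linarith) (by linarith))
      have h2 : (m : ℝ) / (m - 1) - 1 ≤ 2 / m := by
        rw [div_sub_one (by linarith), div_le_div_iff₀ (by linarith) (by linarith)]
        nlinarith
      have h3 : (2 : ℝ) / m ≤ 2 / 2 ^ B :=
        div_le_div_of_nonneg_left (by norm_num) (by positivity) h2B
      linarith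
    have hB1 : 1 ≤ B := by
      rcases hzero a0 ha0 with ⟨h4, h5⟩ | ⟨h5, h4⟩
      · simp only [B, β, h4]; omega
      · simp only [B, β, h4]; omega
    have hqX : ∀ q ∈ S, log (q : ℝ) ≤ log X := fun q hq =>
      Real.log_le_log (by exact_mod_cast (hprime q hq).pos) (by exact_mod_cast hle q hq)
    have hdat : Dat N a a0 (fun j => β (a j)) (β a0) (log X) B :=
      { a1 := fun j => (hprime _ (haS' j)).one_le
        a01 := (hprime a0 ha0).one_le
        la := fun j => hqX _ (haS' j)
        la0 := hqX _ ha0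
        l1 := hl
        B1 := hB1
        hb := fun j => hmax _ (haS' j)
        hb0 := rfl }
    have hbak := hB N B a a0 (fun j => β (a j)) (β a0) (log X) hN hdat
      (Subtype.val_injective.comp (S.erase a0).equivFin.symm.injective)
      (fun j => hprime _ (haS' j)) (hprime a0 ha0) (fun j => Finset.ne_of_mem_erase (haS j)) hLamle
    have hN1' : N + 1 = S.card := hN1
    rw [hN1'] at hbak
    -- the bound for `log m`
    have hv : ∀ q ∈ S, (m.factorization q : ℝ) * log q ≤ (B : ℝ) * log X := by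
      intro q hq
      have h1 : m.factorization q ≤ B := by
        have h2 : (β q).natAbs ≤ B := hmax q hq
        rcases hzero q hq with ⟨h4, h5⟩ | ⟨h5, h4⟩
        · omega
        · simp only [β, h4] at h2
          omega
      have h3 : (m.factorization q : ℝ) ≤ B := by exact_mod_cast h1
      exact mul_le_mul h3 (hqX q hq) (Real.log_natCast_nonneg q) (Nat.cast_nonneg _)
    have hlog : log m ≤ S.card * ((B : ℝ) * log X) := by
      rw [← fac_sum hSm]
      have := Finset.sum_le_card_nsmul S (fun q => (m.factorization q : ℝ) * log q)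
        ((B : ℝ) * log X) hv
      rwa [nsmul_eq_mul] at this
    have h8 : (S.card : ℝ) * ((B : ℝ) * log X) ≤ (S.card : ℝ) * log X *
        ((2 : ℝ) ^ (20 * S.card ^ 3) * log X + 2) ^ (16 * S.card ^ 2) := by
      have h9 := mul_le_mul_of_nonneg_left hbak
        (by positivity : (0 : ℝ) ≤ (S.card : ℝ) * log X)
      calc (S.card : ℝ) * ((B : ℝ) * log X) = (S.card : ℝ) * log X * B := by ring
        _ ≤ _ := h9
    exact hlog.trans (h8.trans (mono hl hcard))

end Pool.Agent.BKW.H62
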